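import Pool.Agent.Helper44.TOT.Defs

/-! TOT-O1: deterministic case analysis for one prime -/

set_option autoImplicit false

namespace Pool.Agent.Helper48.TOT

open Pool.Agent.Helper44.TOT Finset

theorem caseAn : CaseAn := by
  classical
  intro x n G b Λ G1 uB u1 ηB η1 z δ hp hp5 hpx hlog hAvg hGΛ hΛ hG1 hb hGb hGbG hz hδ hδ1 hGp
    hwB hw1 hΛη hGη hu hsq
  have hn0 : n ≠ 0 := by omega
  have hx5 : 5 ≤ x := le_trans hp5 hpx
  have hx1 : (1 : ℝ) ≤ x := by exact_mod_cast (by omega : 1 ≤ x)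
  have hLx : 0 < Real.log x := Real.log_pos (by exact_mod_cast (by omega : 1 < x))
  set Lx : ℝ := Real.log x with hLxdef
  set Lp : ℝ := Real.log ((n : ℝ) + 1) with hLpdef
  have hLp : 0 < Lp := by linarith
  have hLpx : Lp ≤ Lx := by
    rw [hLpdef, hLxdef]
    exact Real.log_le_log (by positivity) (by exact_mod_cast hpx)
  have hnpos : (0 : ℝ) < n := by exact_mod_cast Nat.pos_of_ne_zero hn0
  have hLn : Real.log n ≤ Lp := Real.log_le_log hnpos (by linarith)
  have hpow : (x : ℝ) ^ uB ≤ (x : ℝ) ^ u1 := Real.rpow_le_rpow_of_exponent_le hx1 hu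
  -- the averaging inequality
  have havg := hAvg (n + 1) hp hp5
  simp only [Nat.add_sub_cancel] at havg
  have hcast : Real.log ((n + 1 : ℕ) : ℝ) = Lp := by rw [hLpdef]; push_cast; rfl
  rw [hcast] at havg
  set H : Finset ℕ := n.primeFactors.filter (fun q => (x : ℝ) ^ uB ≤ q) with hH
  have hHprime : ∀ q ∈ H, q.Prime := fun q hq => Nat.prime_of_mem_primeFactors (mem_filter.1 hq).1
  have hHdvd : ∀ q ∈ H, q ∣ n := fun q hq => Nat.dvd_of_mem_primeFactors (mem_filter.1 hq).1
  have hHge : ∀ q ∈ H, (x : ℝ) ^ uB ≤ q := fun q hq => (mem_filter.1 hq).2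
  have hfac : ∀ q ∈ H, n.factorization q = 1 := by
    intro q hq
    have h1 : 1 ≤ n.factorization q :=
      ((hHprime q hq).dvd_iff_one_le_factorization hn0).1 (hHdvd q hq)
    have h2 : ¬ 2 ≤ n.factorization q := by
      intro h
      exact hsq q (hHprime q hq) (hHge q hq)
        (((hHprime q hq).pow_dvd_iff_le_factorization hn0).2 h)
    omega
  -- pointwise split
  have hpt : ∀ q ∈ n.primeFactors, (n.factorization q : ℝ) * Real.log q * G q ≤
      Λ * (if (q : ℝ) < (x : ℝ) ^ uB then (n.factorization q : ℝ) * Real.log q else 0)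
      + G1 * (if (q : ℝ) < (x : ℝ) ^ u1 then (n.factorization q : ℝ) * Real.log q else 0)
      + (if (x : ℝ) ^ uB ≤ q then (n.factorization q : ℝ) * Real.log q * b q else 0) := by
    intro q hq
    have hqp := Nat.prime_of_mem_primeFactors hq
    have hlq : 0 ≤ Real.log q := Real.log_natCast_nonneg q
    set w : ℝ := (n.factorization q : ℝ) * Real.log q with hw
    have hw0 : 0 ≤ w := mul_nonneg (Nat.cast_nonneg _) hlq
    have hG1w : 0 ≤ G1 * w := mul_nonneg hG1 hw0
    rcases lt_or_ge (q : ℝ) ((x : ℝ) ^ uB) with h1 | h1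
    · have h2 : (q : ℝ) < (x : ℝ) ^ u1 := lt_of_lt_of_le h1 hpow
      rw [if_pos h1, if_pos h2, if_neg (not_le.2 h1)]
      have := mul_le_mul_of_nonneg_left (hGΛ q hqp) hw0
      nlinarith
    · rw [if_neg (not_lt.2 h1), if_pos h1]
      rcases lt_or_ge (q : ℝ) ((x : ℝ) ^ u1) with h2 | h2
      · rw [if_pos h2]
        have := mul_le_mul_of_nonneg_left (hGbG q hqp h1) hw0
        nlinarith
      · rw [if_neg (not_lt.2 h2)]
        have := mul_le_mul_of_nonneg_left (hGb q hqp h2) hw0
        linarith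
  have hsum : wsum G n ≤ Λ * wlow ((x : ℝ) ^ uB) n + G1 * wlow ((x : ℝ) ^ u1) n
      + ∑ q ∈ H, Real.log q * b q := by
    have h1 := Finset.sum_le_sum hpt
    rw [Finset.sum_add_distrib, Finset.sum_add_distrib, ← Finset.mul_sum, ← Finset.mul_sum] at h1
    have h2 : ∑ q ∈ n.primeFactors, (if (x : ℝ) ^ uB ≤ (q : ℝ) then
        (n.factorization q : ℝ) * Real.log q * b q else 0) = ∑ q ∈ H, Real.log q * b q := by
      rw [← Finset.sum_filter, ← hH]
      refine Finset.sum_congr rfl (fun q hq => ?_)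
      rw [hfac q hq]
      push_cast
      ring
    rw [h2] at h1
    exact h1
  have hlow1 : Λ * wlow ((x : ℝ) ^ uB) n ≤ δ / 8 * Lx := by
    calc Λ * wlow ((x : ℝ) ^ uB) n ≤ Λ * (ηB * Lx) := mul_le_mul_of_nonneg_left hwB hΛ
      _ = (Λ * ηB) * Lx := by ring
      _ ≤ δ / 8 * Lx := mul_le_mul_of_nonneg_right hΛη hLx.le
  have hlow2 : G1 * wlow ((x : ℝ) ^ u1) n ≤ δ / 8 * Lx := by
    calc G1 * wlow ((x : ℝ) ^ u1) n ≤ G1 * (η1 * Lx) := mul_le_mul_of_nonneg_left hw1 hG1
      _ = (G1 * η1) * Lx := by ring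
      _ ≤ δ / 8 * Lx := mul_le_mul_of_nonneg_right hGη hLx.le
  have hSig : (z - δ / 2) * Lp ≤ ∑ q ∈ H, Real.log q * b q := by
    have h1 : (z - δ / 8) * Lp ≤ G (n + 1) * Lp := mul_le_mul_of_nonneg_right hGp hLp.le
    have h2 : δ * Lx ≤ 10 / 9 * (δ * Lp) := by nlinarith
    nlinarith
  -- sum of logs
  have hprod : ∏ q ∈ H, q ∣ n :=
    Finset.prod_primes_dvd n (fun q hq => (hHprime q hq).prime) hHdvd
  have hlogsum : ∑ q ∈ H, Real.log q ≤ Real.log n := by
    have h1 : ∑ q ∈ H, Real.log (q : ℝ) = Real.log ((∏ q ∈ H, q : ℕ) : ℝ) := by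
      rw [Nat.cast_prod, Real.log_prod]
      intro q hq
      exact_mod_cast (hHprime q hq).ne_zero
    rw [h1]
    refine Real.log_le_log ?_ (by exact_mod_cast Nat.le_of_dvd (Nat.pos_of_ne_zero hn0) hprod)
    exact_mod_cast Finset.prod_pos (fun q hq => (hHprime q hq).pos)
  have hHne : H.Nonempty := by
    by_contra h
    rw [Finset.not_nonempty_iff_eq_empty] at h
    rw [h, Finset.sum_empty] at hSig
    have : 0 < (z - δ / 2) * Lp := mul_pos (by linarith) hLp
    linarith
  obtain ⟨l1, hl1, hmax⟩ := Finset.exists_max_image H b hHne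
  have hl1p := hHprime l1 hl1
  have hll1 : 0 ≤ Real.log (l1 : ℝ) := Real.log_natCast_nonneg l1
  have hll1' : 0 < Real.log (l1 : ℝ) := Real.log_pos (by exact_mod_cast hl1p.one_lt)
  have hb1 : z - δ / 2 ≤ b l1 := by
    have h1 : ∑ q ∈ H, Real.log q * b q ≤ ∑ q ∈ H, Real.log q * b l1 :=
      Finset.sum_le_sum (fun q hq => mul_le_mul_of_nonneg_left (hmax q hq) (Real.log_natCast_nonneg q))
    rw [← Finset.sum_mul] at h1
    have h2 : (∑ q ∈ H, Real.log (q : ℝ)) * b l1 ≤ Lp * b l1 :=
      mul_le_mul_of_nonneg_right (hlogsum.trans hLn) (hb l1)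
    have h3 : (z - δ / 2) * Lp ≤ b l1 * Lp := by linarith
    exact le_of_mul_le_mul_right h3 hLp
  by_cases hsec : ∃ l2 ∈ H, l2 ≠ l1 ∧ z / 2 ≤ b l2
  · obtain ⟨l2, hl2, hne, hb2⟩ := hsec
    right; left
    exact ⟨l1, l2, hl1p, hHprime l2 hl2, hne.symm, hHdvd l1 hl1, hHdvd l2 hl2, hHge l1 hl1,
      hHge l2 hl2, by linarith, hb2⟩
  · push Not at hsec
    obtain ⟨m, hm⟩ := hHdvd l1 hl1
    have hm0 : m ≠ 0 := by
      rintro rfl
      simp at hm
      exact hn0 hm
    have hmpos : (0 : ℝ) < m := by exact_mod_cast Nat.pos_of_ne_zero hm0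
    have hl1pos : (0 : ℝ) < l1 := by exact_mod_cast hl1p.pos
    have hlogn : Real.log n = Real.log l1 + Real.log m := by
      rw [hm]; push_cast
      rw [Real.log_mul hl1pos.ne' hmpos.ne']
    have hlm : 0 ≤ Real.log (m : ℝ) := Real.log_natCast_nonneg m
    have hsplit : ∑ q ∈ H, Real.log q * b q ≤ Real.log l1 * b l1 + Real.log m * (z / 2) := by
      rw [← Finset.add_sum_erase H _ hl1]
      have h1 : ∑ q ∈ H.erase l1, Real.log q * b q ≤ ∑ q ∈ H.erase l1, Real.log q * (z / 2) := by
        refine Finset.sum_le_sum (fun q hq => ?_)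
        have hq' := Finset.mem_erase.1 hq
        exact mul_le_mul_of_nonneg_left (hsec q hq'.2 hq'.1).le (Real.log_natCast_nonneg q)
      rw [← Finset.sum_mul] at h1
      have h2 : ∑ q ∈ H.erase l1, Real.log (q : ℝ) ≤ Real.log m := by
        have h3 := hlogsum
        rw [← Finset.add_sum_erase H _ hl1] at h3
        linarith
      have h4 : (∑ q ∈ H.erase l1, Real.log (q : ℝ)) * (z / 2) ≤ Real.log m * (z / 2) :=
        mul_le_mul_of_nonneg_right h2 (by linarith)
      linarith
    have hkey : (z - δ / 2) * Lp ≤ Real.log l1 * b l1 + Real.log m * (z / 2) := hSig.trans hsplit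
    rcases le_or_gt (Real.log (l1 : ℝ)) (Lp / 2) with hc | hc
    · -- case 1
      left
      refine ⟨l1, hl1p, hHdvd l1 hl1, hHge l1 hl1, ?_, ?_⟩
      · have h1 : Real.log (l1 : ℝ) ≤ Real.log ((x : ℝ) ^ ((1 : ℝ) / 2)) := by
          rw [Real.log_rpow (by linarith)]
          linarith
        exact (Real.log_le_log_iff hl1pos (by positivity)).1 h1
      · -- b1 >= 3/2 z - δ
        have h1 : Real.log m ≤ Lp - Real.log l1 := by linarith
        have h2 : (z - δ / 2) * Lp ≤ Real.log l1 * b l1 + (Lp - Real.log l1) * (z / 2) := by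
          have := mul_le_mul_of_nonneg_right h1 (by linarith : 0 ≤ z / 2)
          linarith
        have h3 : (z / 2 - δ / 2) * Lp ≤ Real.log l1 * (b l1 - z / 2) := by linarith
        have h4 : (z / 2 - δ / 2) * (2 * Real.log l1) ≤ (z / 2 - δ / 2) * Lp :=
          mul_le_mul_of_nonneg_left (by linarith) (by linarith)
        have h5 : (z - δ) * Real.log l1 ≤ (b l1 - z / 2) * Real.log l1 := by linarith
        have h6 : z - δ ≤ b l1 - z / 2 := le_of_mul_le_mul_right h5 hll1'
        linarith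
    · -- case 3
      right; right
      refine ⟨m, l1, hl1p, by rw [hm]; ring, ?_, ?_⟩
      · have h1 : Real.log m ≤ Lp / 2 := by linarith
        have h2 : Real.log ((m * m : ℕ) : ℝ) ≤ Real.log x := by
          push_cast
          rw [Real.log_mul hmpos.ne' hmpos.ne']
          linarith
        have h3 : ((m * m : ℕ) : ℝ) ≤ (x : ℝ) :=
          (Real.log_le_log_iff (by push_cast; positivity) (by linarith)).1 h2
        exact_mod_cast h3
      · -- b bound
        set V : ℝ := Real.log m / Lp with hV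
        have hV0 : 0 ≤ V := div_nonneg hlm hLp.le
        have hmV : Real.log m = V * Lp := by rw [hV]; field_simp
        have hVhalf : V ≤ 1 / 2 := by
          rw [hV, div_le_iff₀ hLp]
          linarith
        have hvV : Real.log m / Real.log x ≤ V := by
          rw [hV]
          exact div_le_div_of_nonneg_left hlm hLp hLpx
        have h1 : (z - δ / 2) * Lp ≤ ((1 - V) * b l1 + V * (z / 2)) * Lp := by
          have h2 : Real.log l1 ≤ Lp - Real.log m := by linarith
          have h3 := mul_le_mul_of_nonneg_right h2 (hb l1)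
          rw [hmV] at h3 hkey
          linarith
        have h2 : z - δ / 2 ≤ (1 - V) * b l1 + V * (z / 2) := le_of_mul_le_mul_right h1 hLp
        have h3 : (1 - V) * (z * (1 + V / 2) - 2 * δ) ≤ (1 - V) * b l1 := by
          have e1 : (1 - V) * (z * (1 + V / 2) - 2 * δ)
              = z - V * (z / 2) - (z * (V * V)) / 2 - 2 * (δ * (1 / 2 - V)) - δ := by ring
          have e2 : 0 ≤ z * (V * V) := mul_nonneg (by linarith) (mul_nonneg hV0 hV0)
          have e3 : 0 ≤ δ * (1 / 2 - V) := mul_nonneg hδ.le (by linarith)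
          rw [e1]
          linarith
        have h4 : z * (1 + V / 2) - 2 * δ ≤ b l1 := le_of_mul_le_mul_left h3 (by linarith)
        have h5 : z * (1 + (Real.log m / Real.log x) / 2) ≤ z * (1 + V / 2) :=
          mul_le_mul_of_nonneg_left (by linarith) (by linarith)
        linarith

end Pool.Agent.Helper48.TOT
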